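import Mathlib

set_option autoImplicit false
set_option linter.unusedSectionVars false

/-! Polynomials in independent normal variables: integration by parts and the complete symmetric functions. -/

namespace Run7.h886.SX

open Finset MvPolynomial

section functional

variable {σ : Type} (μ : σ → ℕ → ℝ)

/-- The linear functional with the given product moments. -/
noncomputable def EL : MvPolynomial σ ℝ →ₗ[ℝ] ℝ := (basisMonomials σ ℝ).constr ℝ fun m => m.prod fun v a => μ v a

theorem EL_monomial (m : σ →₀ ℕ) (c : ℝ) : EL μ (monomial m c) = c * m.prod fun v a => μ v a := by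
  have h1 : monomial m c = c • (basisMonomials σ ℝ m : MvPolynomial σ ℝ) := by
    rw [coe_basisMonomials, smul_monomial, smul_eq_mul, mul_one]
  rw [h1, map_smul]
  unfold EL
  rw [Module.Basis.constr_basis]
  rfl

theorem EL_eq (f : MvPolynomial σ ℝ) : EL μ f = ∑ m ∈ f.support, f.coeff m * m.prod fun v a => μ v a := by
  conv_lhs => rw [← support_sum_monomial_coeff f]
  rw [map_sum]
  exact sum_congr rfl fun m _ => EL_monomial μ m _

theorem EL_one : EL μ 1 = 1 := by
  have h1 : (1 : MvPolynomial σ ℝ) = monomial 0 1 := rfl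
  rw [h1, EL_monomial, Finsupp.prod_zero_index, mul_one]

variable {μ} {e V : σ → ℝ}

theorem ibp (h0 : ∀ v, μ v 0 = 1) (h1 : ∀ v a, μ v (a + 1) = e v * μ v a + V v * a * μ v (a - 1)) (v : σ) (f : MvPolynomial σ ℝ) :
    EL μ (X v * f) = e v * EL μ f + V v * EL μ (pderiv v f) := by
  classical
  induction f using MvPolynomial.induction_on' with
  | monomial m c =>
    have hX : (X v * monomial m c : MvPolynomial σ ℝ) = monomial (Finsupp.single v 1 + m) c := by
      rw [X, monomial_mul, one_mul]
    rw [hX, pderiv_monomial, EL_monomial, EL_monomial, EL_monomial]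
    obtain ⟨S, hS⟩ : ∃ S : Finset σ, S = insert v m.support := ⟨_, rfl⟩
    have hv : v ∈ S := by rw [hS]; exact mem_insert_self _ _
    have hm : ∀ w, w ∉ S → m w = 0 := by
      intro w hw
      rw [hS, mem_insert, not_or, Finsupp.notMem_support_iff] at hw
      exact hw.2
    have hprod : ∀ m' : σ →₀ ℕ, (∀ w, w ∉ S → m' w = 0) → m'.prod (fun v a => μ v a) = μ v (m' v) * ∏ w ∈ S.erase v, μ w (m' w) := by
      intro m' hm'
      rw [mul_prod_erase S (fun w => μ w (m' w)) hv]
      refine Finsupp.prod_of_support_subset _ (fun w hw => ?_) _ fun w _ => h0 w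
      by_contra hno
      exact (Finsupp.mem_support_iff.1 hw) (hm' w hno)
    have hne : ∀ w, w ∉ S → w ≠ v := fun w hw h => hw (h ▸ hv)
    rw [hprod _ hm, hprod (Finsupp.single v 1 + m) (fun w hw => by
      rw [Finsupp.add_apply, hm w hw, Finsupp.single_eq_of_ne (hne w hw)]), hprod (m - Finsupp.single v 1) (fun w hw => by
      rw [Finsupp.tsub_apply, hm w hw, Nat.zero_sub])]
    have hA : ∏ w ∈ S.erase v,  μ w ((Finsupp.single v 1 + m : σ →₀ ℕ) w) = ∏ w ∈ S.erase v, μ w (m w) := by
      refine prod_congr rfl fun w hw => ?_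
      rw [Finsupp.add_apply, Finsupp.single_eq_of_ne (ne_of_mem_erase hw), zero_add]
    have hB : ∏ w ∈ S.erase v,  μ w ((m - Finsupp.single v 1 : σ →₀ ℕ) w) = ∏ w ∈ S.erase v, μ w (m w) := by
      refine prod_congr rfl fun w hw => ?_
      rw [Finsupp.tsub_apply, Finsupp.single_eq_of_ne (ne_of_mem_erase hw), Nat.sub_zero]
    rw [hA, hB, Finsupp.add_apply, Finsupp.single_eq_same, Finsupp.tsub_apply, Finsupp.single_eq_same, add_comm 1 (m v), h1]
    ring
  | add p q hp hq =>
    rw [mul_add, map_add, hp, hq, map_add, map_add, map_add]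
    ring

end functional

/-- The complete symmetric function `h_k` in terms of the power sums `x i` of degree `i + 1`:
`k h_k = ∑_{i < k} x_i h_{k - 1 - i}`. -/
noncomputable def sym {R : Type} [CommRing R] [Algebra ℝ R] (x : ℕ → R) : ℕ → R
  | 0 => 1
  | k + 1 => ((k + 1 : ℝ)⁻¹) • ∑ i : Fin (k + 1), x i * sym x (k - i)

section sym

variable {R : Type} [CommRing R] [Algebra ℝ R]

theorem sym_zero (x : ℕ → R) : sym x 0 = 1 := by rw [sym]

theorem sym_rec (x : ℕ → R) (k : ℕ) : (k : ℝ) • sym x k = ∑ i ∈ range k, x i * sym x (k - 1 - i) := by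
  cases k with
  | zero => rw [Nat.cast_zero, zero_smul, range_zero, sum_empty]
  | succ k =>
    rw [sym, smul_smul, Nat.cast_succ, mul_inv_cancel₀ (by positivity), one_smul,
      ← Fin.sum_univ_eq_sum_range (fun i => x i * sym x (k + 1 - 1 - i)) (k + 1)]
    rfl

theorem sym_map {R' : Type} [CommRing R'] [Algebra ℝ R'] (φ : R →ₐ[ℝ] R') (x : ℕ → R) (k : ℕ) : φ (sym x k) = sym (fun i => φ (x i)) k := by
  induction k using Nat.strong_induction_on with
  | _ k ih =>
    cases k with
    | zero => rw [sym_zero, sym_zero, map_one]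
    | succ k =>
      rw [sym, sym, map_smul, map_sum]
      congr 1
      refine sum_congr rfl fun i _ => ?_
      rw [map_mul, ih (k - i) (by omega)]

variable {σ : Type}

theorem smul_cancel {k : ℕ} (hk : 0 < k) {f g : MvPolynomial σ ℝ} (h : (k : ℝ) • f = (k : ℝ) • g) : f = g := by
  have h1 : ((k : ℝ)⁻¹) • ((k : ℝ) • f) = ((k : ℝ)⁻¹) • ((k : ℝ) • g) := by rw [h]
  have h2 : (k : ℝ) ≠ 0 := by exact_mod_cast hk.ne'
  rwa [smul_smul, smul_smul, inv_mul_cancel₀ h2, one_smul, one_smul] at h1

theorem pderiv_sym {Y : ℕ → MvPolynomial σ ℝ} {v : σ} {j : ℕ} {c : ℝ} (hY : ∀ i, pderiv v (Y i) = if i = j then C c else 0) (k : ℕ) :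
    pderiv v (sym Y k) = if j < k then (c / (j + 1)) • sym Y (k - 1 - j) else 0 := by
  induction k using Nat.strong_induction_on with
  | _ k ih =>
    rcases Nat.eq_zero_or_pos k with rfl | hk
    · rw [sym_zero, if_neg (Nat.not_lt_zero j), pderiv_one]
    apply smul_cancel hk
    rw [← Derivation.map_smul, sym_rec, map_sum]
    have h1 : ∀ i ∈ range k, pderiv v (Y i * sym Y (k - 1 - i)) = (if i = j then c • sym Y (k - 1 - j) else 0) +
        (if i < k - 1 - j then (c / (j + 1)) • (Y i * sym Y (k - 1 - j - 1 - i)) else 0) := by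
      intro i hi
      have hi' := mem_range.1 hi
      rw [Derivation.leibniz, ih (k - 1 - i) (by omega), hY, smul_eq_mul, smul_eq_mul, add_comm]
      congr 1
      · split_ifs with h
        · rw [h, mul_comm, ← smul_eq_C_mul]
        · rw [mul_zero]
      · by_cases h : i < k - 1 - j
        · rw [if_pos h, if_pos (by omega : j < k - 1 - i), mul_smul_comm]
          congr 3
          omega
        · rw [if_neg h, if_neg (by omega : ¬ j < k - 1 - i), mul_zero]
    rw [sum_congr rfl h1, sum_add_distrib]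
    by_cases hj : j < k
    · rw [if_pos hj, sum_ite_eq' (range k) j, if_pos (mem_range.2 hj), ← sum_filter]
      have h2 : (range k).filter (fun i => i < k - 1 - j) = range (k - 1 - j) := by
        ext i
        rw [mem_filter, mem_range, mem_range]
        omega
      rw [h2, ← smul_sum, ← sym_rec, smul_smul, smul_smul, ← add_smul]
      congr 1
      have h3 : ((k - 1 - j : ℕ) : ℝ) = (k : ℝ) - 1 - j := by
        rw [Nat.cast_sub (by omega), Nat.cast_sub (by omega), Nat.cast_one]
      have h4 : (j : ℝ) + 1 ≠ 0 := by positivity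
      rw [h3]
      field_simp
      ring
    · rw [if_neg hj, smul_zero]
      have h2 : ∀ i ∈ range k, (if i = j then c • sym Y (k - 1 - j) else 0) = 0 := fun i hi => by
        have := mem_range.1 hi
        rw [if_neg (by omega)]
      have h3 : ∀ i ∈ range k, (if i < k - 1 - j then (c / (j + 1)) • (Y i * sym Y (k - 1 - j - 1 - i)) else 0) = 0 := fun i hi => by
        rw [if_neg (by omega)]
      rw [sum_congr rfl h2, sum_congr rfl h3, sum_const_zero, add_zero]

end sym

section means

variable {Λ : Type} [DecidableEq Λ] {μ : Λ × ℕ → ℕ → ℝ} {e : Λ × ℕ → ℝ}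

/-- the variables of a set of blocks with multiplicities -/
noncomputable def YY (S : Finset Λ) (r : Λ → ℝ) (c : ℕ → ℝ) (i : ℕ) : MvPolynomial (Λ × ℕ) ℝ := c i • ∑ l ∈ S, r l • X (l, i)

theorem pderiv_YY {S : Finset Λ} (r : Λ → ℝ) (c : ℕ → ℝ) {l : Λ} (hl : l ∈ S) (i j : ℕ) :
    pderiv (l, j) (YY S r c i) = if i = j then C (c j * r l) else 0 := by
  unfold YY
  rw [Derivation.map_smul, map_sum]
  have h1 : ∀ l' ∈ S, pderiv (l, j) (r l' • X (l', i) : MvPolynomial (Λ × ℕ) ℝ) = if l' = l then (if i = j then C (r l) else 0) else 0 := by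
    intro l' _
    rw [Derivation.map_smul]
    by_cases h : l' = l
    · rw [if_pos h, h]
      by_cases h2 : i = j
      · rw [if_pos h2, h2, pderiv_X_self, smul_eq_C_mul, mul_one]
      · rw [if_neg h2, pderiv_X_of_ne (fun h3 => h2 (Prod.ext_iff.1 h3).2), smul_zero]
    · rw [if_neg h, pderiv_X_of_ne (fun h3 => h (Prod.ext_iff.1 h3).1), smul_zero]
  rw [sum_congr rfl h1, sum_ite_eq' S l, if_pos hl]
  by_cases h2 : i = j
  · rw [if_pos h2, if_pos h2, h2, smul_eq_C_mul, ← C_mul]
  · rw [if_neg h2, if_neg h2, smul_zero]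

/-- The recursion for the mean values. -/
theorem mean_rec (h0 : ∀ v, μ v 0 = 1) (h1 : ∀ v a, μ v (a + 1) = e v * μ v a + ((v.2 : ℝ) + 1) * a * μ v (a - 1))
    (S : Finset Λ) (r : Λ → ℝ) (c : ℕ → ℝ) (k : ℕ) (G : MvPolynomial (Λ × ℕ) ℝ) :
    (k : ℝ) * EL μ (sym (YY S r c) k * G) =
      ∑ i ∈ range k, c i * (∑ l ∈ S, r l * e (l, i)) * EL μ (sym (YY S r c) (k - 1 - i) * G) +
      ∑ i ∈ range k, (if 2 * i + 1 < k then c i ^ 2 * (∑ l ∈ S, r l ^ 2) * EL μ (sym (YY S r c) (k - 2 - 2 * i) * G) else 0) +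
      ∑ i ∈ range k, c i * (i + 1) * ∑ l ∈ S, r l * EL μ (sym (YY S r c) (k - 1 - i) * pderiv (l, i) G) := by
  rw [← smul_eq_mul, ← map_smul, ← smul_mul_assoc, sym_rec, sum_mul, map_sum, ← sum_add_distrib, ← sum_add_distrib]
  refine sum_congr rfl fun i hi => ?_
  have hi' := mem_range.1 hi
  have h2 : YY S r c i * sym (YY S r c) (k - 1 - i) * G = c i • ∑ l ∈ S, r l • (X (l, i) * (sym (YY S r c) (k - 1 - i) * G)) := by
    unfold YY
    rw [smul_mul_assoc, smul_mul_assoc, sum_mul, sum_mul]
    congr 1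
    exact sum_congr rfl fun l _ => by rw [smul_mul_assoc, smul_mul_assoc, mul_assoc]
  rw [h2, map_smul, map_sum, smul_eq_mul]
  have h3 : ∀ l ∈ S, EL μ (r l • (X (l, i) * (sym (YY S r c) (k - 1 - i) * G))) = (r l * e (l, i)) * EL μ (sym (YY S r c) (k - 1 - i) * G) +
      (r l ^ 2 * (if 2 * i + 1 < k then c i * EL μ (sym (YY S r c) (k - 2 - 2 * i) * G) else 0) +
        (i + 1) * (r l * EL μ (sym (YY S r c) (k - 1 - i) * pderiv (l, i) G))) := by
    intro l hl
    have h6 : (i + 1) * EL μ (G * (if i < k - 1 - i then ((c i * r l) / (i + 1)) • sym (YY S r c) (k - 1 - i - 1 - i) else 0)) =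
        r l * (if 2 * i + 1 < k then c i * EL μ (sym (YY S r c) (k - 2 - 2 * i) * G) else 0) := by
      by_cases h : 2 * i + 1 < k
      · rw [if_pos h, if_pos (by omega : i < k - 1 - i), mul_smul_comm, map_smul, smul_eq_mul]
        have h4 : k - 1 - i - 1 - i = k - 2 - 2 * i := by omega
        have h5 : (i : ℝ) + 1 ≠ 0 := by positivity
        rw [h4, mul_comm G]
        field_simp
      · rw [if_neg h, if_neg (by omega : ¬ i < k - 1 - i), mul_zero, map_zero, mul_zero, mul_zero]
    rw [map_smul, smul_eq_mul, ibp (V := fun v => (v.2 : ℝ) + 1) h0 h1 (l, i), Derivation.leibniz, pderiv_sym (pderiv_YY r c hl · i), map_add,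
      smul_eq_mul, smul_eq_mul, mul_add ((i : ℝ) + 1), h6]
    ring
  rw [sum_congr rfl h3, sum_add_distrib, sum_add_distrib, ← sum_mul, ← sum_mul, ← mul_sum]
  split_ifs
  · ring
  · ring

/-- reindexing -/
theorem odd_sum (k : ℕ) (F : ℕ → ℝ) :
    ∑ i ∈ range k, (if Odd i then F (k - 1 - i) else 0) = ∑ i ∈ range k, (if 2 * i + 1 < k then F (k - 2 - 2 * i) else 0) := by
  rw [← sum_filter, ← sum_filter]
  symm
  refine sum_nbij' (fun i => 2 * i + 1) (fun i => i / 2) ?_ ?_ ?_ ?_ ?_
  · intro i hi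
    rw [mem_filter, mem_range] at hi ⊢
    exact ⟨hi.2, ⟨i, rfl⟩⟩
  · intro i hi
    rw [mem_filter, mem_range] at hi ⊢
    obtain ⟨h1, r, rfl⟩ := hi
    omega
  · intro i _
    omega
  · intro i hi
    rw [mem_filter, mem_range] at hi
    obtain ⟨h1, r, rfl⟩ := hi
    omega
  · intro i hi
    rw [mem_filter, mem_range] at hi
    congr 1
    omega

/-- The symplectic case: the characters of the symmetric powers are orthonormal. -/
theorem mean_sym (h0 : ∀ v, μ v 0 = 1) (h1 : ∀ v a, μ v (a + 1) = e v * μ v a + ((v.2 : ℝ) + 1) * a * μ v (a - 1))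
    {l : Λ} (he : ∀ i, e (l, i) = if Odd i then -1 else 0) {G : MvPolynomial (Λ × ℕ) ℝ} (hG : ∀ i, pderiv (l, i) G = 0) (k : ℕ) :
    ∀ k' : ℕ, EL μ (sym (YY {l} 1 1) k * (sym (YY {l} 1 1) k' * G)) = if k = k' then EL μ G else 0 := by
  have key : ∀ (k : ℕ) (F : MvPolynomial (Λ × ℕ) ℝ), (k : ℝ) * EL μ (sym (YY {l} 1 1) k * F) =
      ∑ i ∈ range k, (i + 1) * EL μ (sym (YY {l} 1 1) (k - 1 - i) * pderiv (l, i) F) := by
    intro k F
    rw [mean_rec h0 h1]
    have h2 : ∀ i ∈ range k, (1 : ℕ → ℝ) i * (∑ l' ∈ {l}, (1 : Λ → ℝ) l' * e (l', i)) * EL μ (sym (YY {l} 1 1) (k - 1 - i) * F) =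
        -(if Odd i then (fun r => EL μ (sym (YY {l} 1 1) r * F)) (k - 1 - i) else 0) := by
      intro i _
      rw [sum_singleton, he, Pi.one_apply, Pi.one_apply, one_mul, one_mul]
      split_ifs
      · simp
      · simp
    have h3 : ∀ i ∈ range k, (if 2 * i + 1 < k then (1 : ℕ → ℝ) i ^ 2 * (∑ l' ∈ {l}, (1 : Λ → ℝ) l' ^ 2) * EL μ (sym (YY {l} 1 1) (k - 2 - 2 * i) * F) else 0) =
        (if 2 * i + 1 < k then (fun r => EL μ (sym (YY {l} 1 1) r * F)) (k - 2 - 2 * i) else 0) := by
      intro i _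
      rw [Pi.one_apply, sum_singleton, Pi.one_apply]
      split_ifs
      · simp
      · rfl
    rw [sum_congr rfl h2, sum_congr rfl h3, sum_neg_distrib, odd_sum k (fun r => EL μ (sym (YY {l} 1 1) r * F)), neg_add_cancel, zero_add]
    refine sum_congr rfl fun i _ => ?_
    rw [sum_singleton, Pi.one_apply, Pi.one_apply, one_mul, one_mul]
  have hzero : ∀ k : ℕ, 0 < k → EL μ (sym (YY {l} 1 1) k * G) = 0 := by
    intro k hk
    have h2 := key k G
    have h3 : ∀ i ∈ range k, (i + 1 : ℝ) * EL μ (sym (YY {l} 1 1) (k - 1 - i) * pderiv (l, i) G) = 0 := fun i _ => by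
      rw [hG, mul_zero, map_zero, mul_zero]
    rw [sum_congr rfl h3, sum_const_zero] at h2
    have h4 : (k : ℝ) ≠ 0 := by exact_mod_cast hk.ne'
    exact (mul_eq_zero.1 h2).resolve_left h4
  induction k using Nat.strong_induction_on with
  | _ k ih =>
    intro k'
    rcases Nat.eq_zero_or_pos k with rfl | hk
    · rw [sym_zero, one_mul]
      rcases Nat.eq_zero_or_pos k' with rfl | hk'
      · rw [sym_zero, one_mul, if_pos rfl]
      · rw [hzero k' hk', if_neg (by omega)]
    · have h4 : (k : ℝ) ≠ 0 := by exact_mod_cast hk.ne'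
      apply mul_left_cancel₀ h4
      rw [key]
      have h5 : ∀ i ∈ range k, (i + 1 : ℝ) * EL μ (sym (YY {l} 1 1) (k - 1 - i) * pderiv (l, i) (sym (YY {l} 1 1) k' * G)) =
          if k = k' then EL μ G else 0 := by
        intro i hi
        have hi' := mem_range.1 hi
        rw [Derivation.leibniz, hG, smul_zero, zero_add, pderiv_sym (pderiv_YY 1 1 (mem_singleton_self l) · i), smul_eq_mul]
        by_cases h6 : i < k'
        · rw [if_pos h6, Pi.one_apply, Pi.one_apply, mul_one, mul_smul_comm, mul_smul_comm, map_smul, smul_eq_mul, mul_comm G, ih (k - 1 - i) (by omega)]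
          have h7 : (i : ℝ) + 1 ≠ 0 := by positivity
          by_cases h8 : k = k'
          · rw [if_pos h8, if_pos (by omega)]
            field_simp
          · rw [if_neg h8, if_neg (by omega)]
            simp
        · rw [if_neg h6, mul_zero, mul_zero, map_zero, mul_zero, if_neg (by omega)]
      rw [sum_congr rfl h5, sum_const, card_range, nsmul_eq_mul]

/-- The symplectic case: the mean values of the exterior powers of a sum of blocks with multiplicities. -/
theorem mean_alt (h0 : ∀ v, μ v 0 = 1) (h1 : ∀ v a, μ v (a + 1) = e v * μ v a + ((v.2 : ℝ) + 1) * a * μ v (a - 1))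
    (S : Finset Λ) (r : Λ → ℕ) (he : ∀ l ∈ S, ∀ i, e (l, i) = if Odd i then -1 else 0) {M : ℕ} (hM : 2 * M = ∑ l ∈ S, (r l ^ 2 + r l)) (k : ℕ) :
    EL μ (sym (YY S (fun l => (r l : ℝ)) fun i => (-1) ^ i) k) = if Even k then (Nat.multichoose M (k / 2) : ℝ) else 0 := by
  obtain ⟨H, hH⟩ : ∃ H : ℕ → MvPolynomial (Λ × ℕ) ℝ, H = fun k => sym (YY S (fun l => (r l : ℝ)) fun i => (-1) ^ i) k := ⟨_, rfl⟩
  have hM' : (2 * M : ℝ) = ∑ l ∈ S, (r l : ℝ) ^ 2 + ∑ l ∈ S, (r l : ℝ) := by
    rw [← sum_add_distrib]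
    exact_mod_cast hM
  have key : ∀ k : ℕ, (k : ℝ) * EL μ (H k) = 2 * M * ∑ i ∈ range k, (if 2 * i + 1 < k then EL μ (H (k - 2 - 2 * i)) else 0) := by
    intro k
    have h2 := mean_rec h0 h1 S (fun l => (r l : ℝ)) (fun i => (-1) ^ i) k 1
    simp only [mul_one, pderiv_one, mul_zero, map_zero, sum_const_zero, add_zero] at h2
    rw [hH]
    simp only
    rw [h2]
    have h3 : ∀ i ∈ range k, (-1 : ℝ) ^ i * (∑ l ∈ S, (r l : ℝ) * e (l, i)) * EL μ (sym (YY S (fun l => (r l : ℝ)) fun i => (-1) ^ i) (k - 1 - i)) =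
        (∑ l ∈ S, (r l : ℝ)) * (if Odd i then (fun a => EL μ (sym (YY S (fun l => (r l : ℝ)) fun i => (-1) ^ i) a)) (k - 1 - i) else 0) := by
      intro i _
      rw [sum_congr rfl fun l hl => by rw [he l hl i], ← sum_mul]
      split_ifs with h
      · rw [h.neg_one_pow]
        ring
      · simp
    have h4 : ∀ i ∈ range k, (if 2 * i + 1 < k then ((-1 : ℝ) ^ i) ^ 2 * (∑ l ∈ S, (r l : ℝ) ^ 2) *
          EL μ (sym (YY S (fun l => (r l : ℝ)) fun i => (-1) ^ i) (k - 2 - 2 * i)) else 0) =
        (∑ l ∈ S, (r l : ℝ) ^ 2) * (if 2 * i + 1 < k then EL μ (sym (YY S (fun l => (r l : ℝ)) fun i => (-1) ^ i) (k - 2 - 2 * i)) else 0) := by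
      intro i _
      have h5 : ((-1 : ℝ) ^ i) ^ 2 = 1 := by rw [← pow_mul, mul_comm, pow_mul, neg_one_sq, _root_.one_pow]
      split_ifs
      · rw [h5, one_mul]
      · rw [mul_zero]
    rw [sum_congr rfl h3, sum_congr rfl h4, ← mul_sum, ← mul_sum, odd_sum k (fun a => EL μ (sym (YY S (fun l => (r l : ℝ)) fun i => (-1) ^ i) a)), hM']
    ring
  have goal : ∀ k : ℕ, EL μ (H k) = if Even k then (Nat.multichoose M (k / 2) : ℝ) else 0 := by
    intro k
    induction k using Nat.strong_induction_on with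
    | _ k ih =>
      rcases Nat.eq_zero_or_pos k with rfl | hk
      · rw [hH]
        simp only
        rw [sym_zero, EL_one]
        simp
      have h4 : (k : ℝ) ≠ 0 := by exact_mod_cast hk.ne'
      apply mul_left_cancel₀ h4
      rw [key, ← sum_filter]
      by_cases hev : Even k
      · obtain ⟨a, ha⟩ := hev
        have h5 : (range k).filter (fun i => 2 * i + 1 < k) = range a := by
          ext i
          rw [mem_filter, mem_range, mem_range]
          omega
        rw [h5]
        have h6 : ∀ i ∈ range a, EL μ (H (k - 2 - 2 * i)) = (Nat.multichoose M (a - 1 - i) : ℝ) := by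
          intro i hi
          have hi' := mem_range.1 hi
          rw [ih _ (by omega), if_pos ⟨a - 1 - i, by omega⟩]
          congr 2
          omega
        rw [sum_congr rfl h6, sum_range_reflect (fun i => (Nat.multichoose M i : ℝ)) a, if_pos ⟨a, ha⟩]
        have h7 : k / 2 = a := by omega
        have h8 : ∀ a : ℕ, (M : ℝ) * ∑ i ∈ range a, (Nat.multichoose M i : ℝ) = a * (Nat.multichoose M a : ℝ) := by
          intro a
          induction a with
          | zero => simp
          | succ a iha =>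
            rw [sum_range_succ, mul_add, iha]
            have h9 : (a + 1) * Nat.multichoose M (a + 1) = (a + M) * Nat.multichoose M a := by
              rcases Nat.eq_zero_or_pos M with h | h
              · rw [h]
                cases a with
                | zero => simp
                | succ a => simp
              · rw [Nat.multichoose_eq, Nat.multichoose_eq]
                obtain ⟨m, hm⟩ : ∃ m, M = m + 1 := ⟨M - 1, by omega⟩
                rw [hm]
                have h10 : m + 1 + (a + 1) - 1 = (m + a) + 1 := by omega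
                have h11 : m + 1 + a - 1 = m + a := by omega
                rw [h10, h11, mul_comm (a + 1), ← Nat.add_one_mul_choose_eq]
                ring
            have h10 : ((a : ℝ) + 1) * (Nat.multichoose M (a + 1) : ℝ) = ((a : ℝ) + M) * (Nat.multichoose M a : ℝ) := by
              exact_mod_cast h9
            push_cast
            linarith
        have h9 := h8 a
        rw [h7, ha]
        push_cast
        linarith
      · rw [if_neg hev, mul_zero]
        have h5 : ∀ i ∈ (range k).filter (fun i => 2 * i + 1 < k), EL μ (H (k - 2 - 2 * i)) = 0 := by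
          intro i hi
          rw [mem_filter, mem_range] at hi
          rw [ih _ (by omega), if_neg]
          rintro ⟨a, ha⟩
          exact hev ⟨a + 1 + i, by omega⟩
        rw [sum_congr rfl h5, sum_const_zero, mul_zero]
  have h := goal k
  rw [hH] at h
  exact h

end means

end Run7.h886.SX
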