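import Pool.Agent.Y722.HS.Form
import Pool.Agent.Run7.h886.SX.Ibp

set_option autoImplicit false

/-! Definitions: numbers of points, normalised traces, mean values, and the almost sure statement. -/

namespace Run7.h886.SX

open Finset MvPolynomial
open Pool.Agent.Y722.HS (Mon form IsSmooth)
open scoped LinearAlgebra.Projectivization Nat

/-- The number of the points over the field with `p ^ j` elements of the subscheme of `P ^ n` defined by the forms in `S`. -/
noncomputable def points {n : ℕ} (p j : ℕ) (S : Set (MvPolynomial (Fin (n + 1)) ℤ)) : ℕ :=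
  open scoped Classical in
  if h : p.Prime then
    haveI : Fact p.Prime := ⟨h⟩
    Nat.card {P : ℙ (GaloisField p j) (Fin (n + 1) → GaloisField p j) // ∀ G ∈ S, aeval P.rep G = 0}
  else 0

/-- The number `(-1) ^ (D - 1) (#V(F_q) - c) / q ^ ((D - 1) / 2)`, `q = p ^ j`, for the intersection `V` of `W` (defined by `S`) and the
hypersurface `F = 0`. -/
noncomputable def trace {n : ℕ} (S : Set (MvPolynomial (Fin (n + 1)) ℤ)) (F : MvPolynomial (Fin (n + 1)) ℤ) (D : ℕ) (c : ℝ) (p j : ℕ) : ℝ :=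
  (-1) ^ (D - 1) * (((points p j (S ∪ {F}) : ℝ) - c) / Real.sqrt p ^ (j * (D - 1)))

/-- The hypersurface `F = 0` is smooth over the algebraic closure of the field with `p` elements. -/
def Good {n : ℕ} (F : MvPolynomial (Fin (n + 1)) ℤ) (p : ℕ) : Prop :=
  ∀ _ : Fact p.Prime, IsSmooth (map (algebraMap (ZMod p) (AlgebraicClosure (ZMod p))) (map (Int.castRingHom (ZMod p)) F))

/-- The moment of order `a` of a normal variable of variance `j` with the mean value `s` if `j` is even and `0` if `j` is odd. -/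
noncomputable def moment (s : ℝ) (j a : ℕ) : ℝ :=
  ∑ i ∈ range (a / 2 + 1), (a.choose (2 * i) : ℝ) * ((2 * i - 1)‼ : ℕ) * (j : ℝ) ^ i * (if Even j then s else 0) ^ (a - 2 * i)

/-- The mean value of the polynomial `f` in independent normal variables `x (l, i)` of variance `i + 1` and of mean `s l` if `i + 1` is even and
mean `0` if `i + 1` is odd (the variable `x (l, i)` stands for the trace of the power `i + 1`). -/
noncomputable def mean {Λ : Type} (s : Λ → ℝ) (f : MvPolynomial (Λ × ℕ) ℝ) : ℝ :=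
  ∑ m ∈ f.support, f.coeff m * m.prod fun v a => moment (s v.1) (v.2 + 1) a

/-- The weight of the variable `x (l', i)` in the block `l`: `i + 1` if `l' = l` and `0` otherwise. -/
def blk {Λ : Type} [DecidableEq Λ] (l : Λ) (v : Λ × ℕ) : ℕ := if v.1 = l then v.2 + 1 else 0

/-- The numbers `z_p` have the average `m` with the weights `w`, up to the square root, over all intervals of primes: the sums over the primes
in `𝒢` in `(Y, Y']`, for all `Y ≤ Y'` with `X₀ ≤ Y'` and `8 Y' ^ 3 ≤ T`. -/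
def Typical (C ε : ℝ) (w : ℕ → ℝ) (m : ℝ) (𝒢 : Set ℕ) (X₀ : ℕ) (T : ℝ) (z : ℕ → ℝ) : Prop :=
  ∀ Y Y' : ℕ, Y ≤ Y' → X₀ ≤ Y' → 8 * (Y' : ℝ) ^ 3 ≤ T →
    |∑ᶠ p ∈ {p : ℕ | p.Prime ∧ p ∈ 𝒢 ∧ Y < p ∧ p ≤ Y'}, w p * (z p - m)| ≤ C * (Y' : ℝ) ^ (1 / 2 + ε / 2)

/-- The integer vectors `t` with `N i ≤ t i < N i + L i`. -/
noncomputable def box {κ : Type} [Fintype κ] [DecidableEq κ] (N : κ → ℤ) (L : κ → ℕ) : Finset (κ → ℤ) :=
  Fintype.piFinset fun i => Ico (N i) (N i + L i)

/-- There is a constant `C` such that for all weights `w` with `|w_p| ≤ 1`, all boxes with sides at least `T` and all `X₀` the vectors `t` of the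
box for which the numbers `z t p` are not typical are at most `C X₀ ^ (-ε / 2)` of all. -/
def AlmostAll {κ : Type} [Fintype κ] [DecidableEq κ] (ε m : ℝ) (𝒢 : (κ → ℤ) → Set ℕ) (z : (κ → ℤ) → ℕ → ℝ) : Prop :=
  ∃ C : ℝ, ∀ w : ℕ → ℝ, (∀ p, |w p| ≤ 1) → ∀ (N : κ → ℤ) (L : κ → ℕ) (T : ℝ), (∀ i, T ≤ L i) → ∀ X₀ : ℕ, 1 ≤ X₀ →
    ({t | t ∈ box N L ∧ ¬ Typical C ε w m (𝒢 t) X₀ T (z t)} : Set (κ → ℤ)).ncard ≤ C * (X₀ : ℝ) ^ (-(ε / 2)) * ∏ i, (L i : ℝ)

end Run7.h886.SX
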