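import Pool.Agent.Run7.h886.SX.Poly

set_option autoImplicit false
set_option linter.unusedSectionVars false

/-! The mean values of the symmetric and exterior powers; families with symplectic moments. -/

namespace Run7.h886.SX

open Finset MvPolynomial
open Pool.Agent.Y722.HS (Mon form IsSmooth)
open Run7.h3.ST
open scoped LinearAlgebra.Projectivization Nat

/-- The recursion of the moments of a normal variable. -/
theorem moment_rec (s : ℝ) (j a : ℕ) :
    moment s j (a + 1) = (if Even j then s else 0) * moment s j a + (j : ℝ) * a * moment s j (a - 1) := by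
  obtain ⟨y, hy⟩ : ∃ y : ℝ, y = if Even j then s else 0 := ⟨_, rfl⟩
  have hext : ∀ b N : ℕ, b / 2 + 1 ≤ N → moment s j b = ∑ i ∈ range N, (b.choose (2 * i) : ℝ) * ((2 * i - 1)‼ : ℕ) * (j : ℝ) ^ i * y ^ (b - 2 * i) := by
    intro b N hN
    unfold moment
    rw [← hy]
    refine sum_subset (range_subset_range.2 hN) fun i _ hi => ?_
    rw [mem_range, not_lt] at hi
    rw [Nat.choose_eq_zero_of_lt (by omega)]
    simp
  rw [← hy, hext (a + 1) (a + 2) (by omega), hext a (a + 2) (by omega), hext (a - 1) (a + 1) (by omega), sum_range_succ' _ (a + 1),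
    sum_range_succ' (fun i => (a.choose (2 * i) : ℝ) * ((2 * i - 1)‼ : ℕ) * (j : ℝ) ^ i * y ^ (a - 2 * i)) (a + 1), mul_add, mul_sum, mul_sum]
  have h0 : ((a + 1).choose (2 * 0) : ℝ) * ((2 * 0 - 1)‼ : ℕ) * (j : ℝ) ^ 0 * y ^ (a + 1 - 2 * 0) =
      y * ((a.choose (2 * 0) : ℝ) * ((2 * 0 - 1)‼ : ℕ) * (j : ℝ) ^ 0 * y ^ (a - 2 * 0)) := by
    simp [pow_succ, mul_comm]
  rw [h0, add_right_comm, ← sum_add_distrib]
  congr 1
  refine sum_congr rfl fun i _ => ?_
  have hc : (a + 1).choose (2 * (i + 1)) = a.choose (2 * i + 1) + a.choose (2 * (i + 1)) := by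
    have : 2 * (i + 1) = 2 * i + 1 + 1 := by ring
    rw [this, Nat.choose_succ_succ]
  have hd : (2 * (i + 1) - 1)‼ = (2 * i + 1) * (2 * i - 1)‼ := by
    cases i with
    | zero => simp
    | succ i =>
      have h1 : 2 * (i + 1 + 1) - 1 = (2 * (i + 1) - 1) + 2 := by omega
      rw [h1, Nat.doubleFactorial_add_two]
      congr 1
  rw [hc, Nat.cast_add, add_mul, add_mul, add_mul, add_comm]
  congr 1
  · by_cases h : 2 * (i + 1) ≤ a
    · have h1 : a + 1 - 2 * (i + 1) = a - 2 * (i + 1) + 1 := by omega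
      rw [h1, pow_succ]
      ring
    · rw [Nat.choose_eq_zero_of_lt (by omega : a < 2 * (i + 1))]
      simp
  · rw [hd]
    cases a with
    | zero => simp
    | succ b =>
      have h1 := Nat.add_one_mul_choose_eq b (2 * i)
      have h2 : ((b : ℝ) + 1) * (b.choose (2 * i) : ℝ) = ((b + 1).choose (2 * i + 1) : ℝ) * (2 * i + 1) := by exact_mod_cast h1
      have h3 : b + 1 + 1 - 2 * (i + 1) = b + 1 - 1 - 2 * i := by omega
      rw [h3, Nat.add_sub_cancel]
      push_cast
      calc ((b + 1).choose (2 * i + 1) : ℝ) * ((2 * i + 1) * ((2 * i - 1)‼ : ℕ)) * (j : ℝ) ^ (i + 1) * y ^ (b - 2 * i) =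
          (((b + 1).choose (2 * i + 1) : ℝ) * (2 * i + 1)) * ((2 * i - 1)‼ : ℕ) * (j : ℝ) ^ (i + 1) * y ^ (b - 2 * i) := by ring
        _ = (((b : ℝ) + 1) * (b.choose (2 * i) : ℝ)) * ((2 * i - 1)‼ : ℕ) * (j : ℝ) ^ (i + 1) * y ^ (b - 2 * i) := by rw [h2]
        _ = _ := by ring

section

variable {Λ : Type} [Fintype Λ] [DecidableEq Λ]

/-- the moments of the symplectic case -/
noncomputable def μs (v : Λ × ℕ) (a : ℕ) : ℝ := moment (-1) (v.2 + 1) a

theorem μs_zero (v : Λ × ℕ) : μs v 0 = 1 := moment_zero _ _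

theorem μs_rec (v : Λ × ℕ) (a : ℕ) : μs v (a + 1) = (if Odd v.2 then -1 else 0) * μs v a + ((v.2 : ℝ) + 1) * a * μs v (a - 1) := by
  unfold μs
  rw [moment_rec]
  have h1 : Even (v.2 + 1) ↔ Odd v.2 := by
    rw [Nat.even_add_one, Nat.not_even_iff_odd]
  simp only [h1]
  push_cast
  ring

theorem mean_eq (f : MvPolynomial (Λ × ℕ) ℝ) : mean (fun _ => -1) f = EL (μs (Λ := Λ)) f := by
  rw [EL_eq]
  rfl

/-- The complete symmetric function of the block `l`. -/
noncomputable def HH (l : Λ) (k : ℕ) : MvPolynomial (Λ × ℕ) ℝ := sym (fun i => X (l, i)) k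

theorem HH_eq (l : Λ) (k : ℕ) : HH l k = sym (YY {l} 1 1) k := by
  unfold HH
  congr 1
  funext i
  unfold YY
  simp

theorem pderiv_HH_ne {l l' : Λ} (h : l' ≠ l) (i k : ℕ) : pderiv (l, i) (HH l' k) = 0 := by
  have h1 := pderiv_sym (Y := fun i => (X (l', i) : MvPolynomial (Λ × ℕ) ℝ)) (v := (l, i)) (j := i) (c := 0) (fun a => by
    rw [pderiv_X_of_ne (fun h3 => h (Prod.ext_iff.1 h3).1), C_0]
    simp) k
  unfold HH
  rw [h1]
  simp

theorem pderiv_prod {l : Λ} (S : Finset Λ) (hl : l ∉ S) (κ κ' : Λ → ℕ) (i : ℕ) :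
    pderiv (l, i) (∏ l' ∈ S, HH l' (κ l') * HH l' (κ' l')) = 0 := by
  induction S using Finset.induction_on with
  | empty => rw [prod_empty, pderiv_one]
  | insert a S ha ih =>
    have h1 : a ≠ l := fun h => hl (h ▸ mem_insert_self _ _)
    rw [prod_insert ha, Derivation.leibniz, ih (fun h => hl (mem_insert_of_mem h)), Derivation.leibniz, pderiv_HH_ne h1, pderiv_HH_ne h1]
    simp

theorem mean_prod (κ κ' : Λ → ℕ) : mean (fun _ => -1) (∏ l, HH l (κ l) * HH l (κ' l)) = if κ = κ' then 1 else 0 := by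
  rw [mean_eq]
  have key : ∀ S : Finset Λ, EL (μs (Λ := Λ)) (∏ l ∈ S, HH l (κ l) * HH l (κ' l)) = if ∀ l ∈ S, κ l = κ' l then 1 else 0 := by
    intro S
    induction S using Finset.induction_on with
    | empty => rw [prod_empty, EL_one]; simp
    | insert l S hl ih =>
      rw [prod_insert hl, mul_assoc, HH_eq l (κ l), HH_eq l (κ' l),
        mean_sym μs_zero (e := fun v => if Odd v.2 then -1 else 0) μs_rec (fun i => rfl) (pderiv_prod S hl κ κ'), ih]
      by_cases h1 : κ l = κ' l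
      · rw [if_pos h1]
        congr 1
        simp [h1]
      · rw [if_neg h1, if_neg]
        intro h2
        exact h1 (h2 l (mem_insert_self _ _))
  rw [key]
  congr 1
  simp [funext_iff]

theorem hom_sym {w : Λ × ℕ → ℕ} {Y : ℕ → MvPolynomial (Λ × ℕ) ℝ} (hY : ∀ i, IsWeightedHomogeneous w (Y i) (i + 1)) (k : ℕ) :
    IsWeightedHomogeneous w (sym Y k) k := by
  induction k using Nat.strong_induction_on with
  | _ k ih =>
    cases k with
    | zero => rw [sym_zero]; exact isWeightedHomogeneous_one ℝ w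
    | succ k =>
      rw [sym, smul_eq_C_mul]
      refine IsWeightedHomogeneous.C_mul ?_ _
      refine IsWeightedHomogeneous.sum _ _ _ fun i _ => ?_
      have h1 := (hY i).mul (ih (k - i) (by omega))
      have h2 : (i : ℕ) + 1 + (k - i) = k + 1 := by omega
      rwa [h2] at h1

theorem hom_HH (l l' : Λ) (k : ℕ) : IsWeightedHomogeneous (blk l) (HH l' k) (if l' = l then k else 0) := by
  by_cases h : l' = l
  · rw [if_pos h]
    refine hom_sym (fun i => ?_) k
    have h1 := isWeightedHomogeneous_X ℝ (blk l) (l', i)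
    unfold blk at h1 ⊢
    simpa [h] using h1
  · rw [if_neg h]
    unfold HH
    induction k using Nat.strong_induction_on with
    | _ k ih =>
      cases k with
      | zero => rw [sym_zero]; exact isWeightedHomogeneous_one ℝ _
      | succ k =>
        rw [sym, smul_eq_C_mul]
        refine IsWeightedHomogeneous.C_mul ?_ _
        refine IsWeightedHomogeneous.sum _ _ _ fun i _ => ?_
        have h1 := isWeightedHomogeneous_X ℝ (blk l) (l', (i : ℕ))
        have h2 : blk l (l', (i : ℕ)) = 0 := by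
          unfold blk
          rw [if_neg h]
        rw [h2] at h1
        exact h1.mul (ih (k - i) (by omega))

/-- From the monomials: polynomials. -/
theorem poly {κι : Type} [Fintype κι] [DecidableEq κι] {ε : ℝ} {𝒢 : (κι → ℤ) → Set ℕ} (s : Λ → ℝ) (δ : Λ → ℕ)
    (x : (κι → ℤ) → ℕ → Λ → ℕ → ℝ)
    (hmono : ∀ (J : ℕ) (a : Λ → ℕ → ℕ), (∀ l, 2 * ∑ j ∈ Icc 1 J, j * a l j ≤ δ l + 1) →
      AlmostAll ε (∏ l, ∏ j ∈ Icc 1 J, moment (s l) j (a l j)) 𝒢 fun t p => ∏ l, ∏ j ∈ Icc 1 J, x t p l j ^ a l j)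
    (f : MvPolynomial (Λ × ℕ) ℝ) (hf : ∀ l, 2 * f.weightedTotalDegree (blk l) ≤ δ l + 1) :
    AlmostAll ε (mean s f) 𝒢 fun t p => eval (fun v => x t p v.1 (v.2 + 1)) f := by
  refine poly_of_mono s δ x hmono f fun m hm l => ?_
  have h1 := le_weightedTotalDegree (blk l) hm
  have h2 := hf l
  omega

/-- From the monomials: symmetric powers. -/
theorem symm {κι : Type} [Fintype κι] [DecidableEq κι] {ε : ℝ} {𝒢 : (κι → ℤ) → Set ℕ} (δ : Λ → ℕ)
    (x : (κι → ℤ) → ℕ → Λ → ℕ → ℝ)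
    (hmono : ∀ (J : ℕ) (a : Λ → ℕ → ℕ), (∀ l, 2 * ∑ j ∈ Icc 1 J, j * a l j ≤ δ l + 1) →
      AlmostAll ε (∏ l, ∏ j ∈ Icc 1 J, moment (-1) j (a l j)) 𝒢 fun t p => ∏ l, ∏ j ∈ Icc 1 J, x t p l j ^ a l j)
    (κ κ' : Λ → ℕ) (hκ : ∀ l, 2 * (κ l + κ' l) ≤ δ l + 1) :
    AlmostAll ε (if κ = κ' then 1 else 0) 𝒢 fun t p =>
      ∏ l, sym (fun i => x t p l (i + 1)) (κ l) * sym (fun i => x t p l (i + 1)) (κ' l) := by
  have h1 := poly_of_mono (fun _ => -1) δ x hmono (∏ l, HH l (κ l) * HH l (κ' l)) fun m hm l => by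
    have h2 : IsWeightedHomogeneous (blk l) (∏ l', HH l' (κ l') * HH l' (κ' l'))
        (∑ l', ((if l' = l then κ l' else 0) + (if l' = l then κ' l' else 0))) :=
      IsWeightedHomogeneous.prod _ _ _ fun l' _ => (hom_HH l l' _).mul (hom_HH l l' _)
    have h3 := h2 (mem_support_iff.1 hm)
    rw [h3, sum_add_distrib, sum_ite_eq' univ l, sum_ite_eq' univ l, if_pos (mem_univ l), if_pos (mem_univ l)]
    exact hκ l
  rw [mean_prod] at h1
  have h2 : (fun (t : κι → ℤ) (p : ℕ) => eval (fun v : Λ × ℕ => x t p v.1 (v.2 + 1)) (∏ l, HH l (κ l) * HH l (κ' l))) =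
      fun t p => ∏ l, sym (fun i => x t p l (i + 1)) (κ l) * sym (fun i => x t p l (i + 1)) (κ' l) := by
    funext t p
    rw [map_prod]
    refine prod_congr rfl fun l _ => ?_
    have h3 : ∀ k, eval (fun v : Λ × ℕ => x t p v.1 (v.2 + 1)) (HH l k) = sym (fun i => x t p l (i + 1)) k := by
      intro k
      have h4 := sym_map (aeval (R := ℝ) (fun v : Λ × ℕ => x t p v.1 (v.2 + 1))) (fun i => (X (l, i) : MvPolynomial (Λ × ℕ) ℝ)) k
      unfold HH
      rw [← coe_aeval_eq_eval]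
      refine h4.trans ?_
      congr 1
      funext i
      rw [aeval_X]
    rw [map_mul, h3, h3]
  rw [h2] at h1
  exact h1

/-- From the monomials: the cohomology of a product of Jacobians with multiplicities. -/
theorem altern {κι : Type} [Fintype κι] [DecidableEq κι] {ε : ℝ} {𝒢 : (κι → ℤ) → Set ℕ} (δ : Λ → ℕ)
    (x : (κι → ℤ) → ℕ → Λ → ℕ → ℝ)
    (hmono : ∀ (J : ℕ) (a : Λ → ℕ → ℕ), (∀ l, 2 * ∑ j ∈ Icc 1 J, j * a l j ≤ δ l + 1) →
      AlmostAll ε (∏ l, ∏ j ∈ Icc 1 J, moment (-1) j (a l j)) 𝒢 fun t p => ∏ l, ∏ j ∈ Icc 1 J, x t p l j ^ a l j)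
    (r : Λ → ℕ) (k : ℕ) (hk : ∀ l, 2 * k ≤ δ l + 1) :
    AlmostAll ε (if Even k then (Nat.multichoose (∑ l, (r l + 1).choose 2) (k / 2) : ℝ) else 0) 𝒢 fun t p =>
      sym (fun i => (-1) ^ i * ∑ l, (r l : ℝ) * x t p l (i + 1)) k := by
  have h1 := poly_of_mono (fun _ => -1) δ x hmono (sym (YY univ (fun l => (r l : ℝ)) fun i => (-1) ^ i) k) fun m hm l => by
    -- the weight of a block is at most the total weight
    have h2 : IsWeightedHomogeneous (fun v : Λ × ℕ => v.2 + 1) (sym (YY univ (fun l => (r l : ℝ)) fun i => (-1) ^ i) k) k := by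
      refine hom_sym (fun i => ?_) k
      unfold YY
      rw [smul_eq_C_mul]
      refine IsWeightedHomogeneous.C_mul ?_ _
      refine IsWeightedHomogeneous.sum _ _ _ fun l' _ => ?_
      rw [smul_eq_C_mul]
      exact IsWeightedHomogeneous.C_mul (isWeightedHomogeneous_X ℝ (fun v : Λ × ℕ => v.2 + 1) (l', i)) _
    have h3 := h2 (mem_support_iff.1 hm)
    have h4 : Finsupp.weight (blk l) m ≤ Finsupp.weight (fun v : Λ × ℕ => v.2 + 1) m := by
      rw [Finsupp.weight_apply, Finsupp.weight_apply]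
      refine Finset.sum_le_sum fun v _ => ?_
      simp only [smul_eq_mul]
      refine Nat.mul_le_mul_left _ ?_
      unfold blk
      split_ifs <;> omega
    have h5 := hk l
    omega
  have hM : 2 * (∑ l, (r l + 1).choose 2) = ∑ l ∈ (univ : Finset Λ), (r l ^ 2 + r l) := by
    rw [mul_sum]
    refine sum_congr rfl fun l _ => ?_
    rw [Nat.choose_two_right, Nat.add_sub_cancel, Nat.mul_div_cancel' (by
      rcases Nat.even_or_odd (r l) with h | h
      · exact (h.mul_left _).two_dvd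
      · exact ((h.add_one).mul_right _).two_dvd)]
    ring
  rw [mean_eq, mean_alt μs_zero (e := fun v => if Odd v.2 then -1 else 0) μs_rec univ r (fun l _ i => rfl) hM] at h1
  have h2 : (fun (t : κι → ℤ) (p : ℕ) => eval (fun v : Λ × ℕ => x t p v.1 (v.2 + 1)) (sym (YY univ (fun l => (r l : ℝ)) fun i => (-1) ^ i) k)) =
      fun t p => sym (fun i => (-1) ^ i * ∑ l, (r l : ℝ) * x t p l (i + 1)) k := by
    funext t p
    have h4 := sym_map (aeval (R := ℝ) (fun v : Λ × ℕ => x t p v.1 (v.2 + 1))) (YY univ (fun l => (r l : ℝ)) fun i => (-1) ^ i) k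
    rw [← coe_aeval_eq_eval]
    refine h4.trans ?_
    congr 1
    funext i
    unfold YY
    rw [map_smul, map_sum, smul_eq_mul]
    congr 1
    refine sum_congr rfl fun l _ => ?_
    rw [map_smul, aeval_X, smul_eq_mul]
  rw [h2] at h1
  exact h1

end

end Run7.h886.SX
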