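import Pool.Agent.Run7.h3.ST.Brg
import Pool.Agent.Run7.h886.SX.Defs

set_option autoImplicit false
set_option linter.unusedSectionVars false

/-! From the monomials in the traces of the powers of Frobenius (helper3, `Run7/h3/ST`) to all polynomials. -/

namespace Run7.h886.SX

open Finset MvPolynomial
open Pool.Agent.Y722.HS (Mon form IsSmooth)
open Run7.h3.ST
open scoped LinearAlgebra.Projectivization Nat

lemma set_eq (G : Set ℕ) [DecidablePred (· ∈ G)] (Y Y' : ℕ) :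
    ({p : ℕ | p.Prime ∧ p ∈ G ∧ Y < p ∧ p ≤ Y'} : Set ℕ) = ↑((Ioc Y Y').filter fun p => p.Prime ∧ p ∈ G) := by
  ext p
  rw [mem_coe, mem_filter, mem_Ioc, Set.mem_ofPred_eq]
  tauto

lemma ncard_eq {α : Type} (B : Finset α) (P : α → Prop) [DecidablePred P] : ({t | t ∈ B ∧ P t} : Set α).ncard = (B.filter P).card := by
  rw [← Set.ncard_coe_finset]
  congr 1
  ext t
  rw [mem_coe, mem_filter, Set.mem_ofPred_eq]

lemma almost {κ : Type} [Fintype κ] [DecidableEq κ] {ε m : ℝ} (X : (p : ℕ) → (κ → ZMod p) → ℝ)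
    (H : ∃ C : ℝ, 0 ≤ C ∧ ∀ (w : ℕ → ℝ), (∀ p, |w p| ≤ 1) → ∀ (N : κ → ℤ) (L : κ → ℕ) (T : ℝ), (∀ i, T ≤ L i) → ∀ X₀ : ℕ, 1 ≤ X₀ →
      ∃ E ⊆ bx N L, (E.card : ℝ) ≤ C * (X₀ : ℝ) ^ (-(ε / 2)) * ∏ i, (L i : ℝ) ∧
        ∀ t ∈ bx N L, t ∉ E → ∀ Y Y' : ℕ, Y ≤ Y' → X₀ ≤ Y' → 8 * (Y' : ℝ) ^ 3 ≤ T →
          |∑ i ∈ Ico Y Y', ff X w t i| ≤ 4 * (Y' : ℝ) ^ (1 / 2 + ε / 2))
    (𝒢 : (κ → ℤ) → Set ℕ) (z : (κ → ℤ) → ℕ → ℝ)
    (hz : ∀ t p, p.Prime → (p ∈ 𝒢 t → X p (rd p t) = z t p - m) ∧ (p ∉ 𝒢 t → X p (rd p t) = 0)) :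
    AlmostAll ε m 𝒢 z := by
  classical
  obtain ⟨C, hC, h⟩ := H
  refine ⟨C + 4, fun w hw N L T hT X₀ hX₀ => ?_⟩
  obtain ⟨E, hE, hcard, hgood⟩ := h w hw N L T hT X₀ hX₀
  have hle : (E.card : ℝ) ≤ (C + 4) * (X₀ : ℝ) ^ (-(ε / 2)) * ∏ i, (L i : ℝ) := by
    refine hcard.trans ?_
    have h1 : (0 : ℝ) ≤ (X₀ : ℝ) ^ (-(ε / 2)) := by positivity
    have h2 : (0 : ℝ) ≤ ∏ i, (L i : ℝ) := prod_nonneg fun i _ => Nat.cast_nonneg _
    have h3 : C * (X₀ : ℝ) ^ (-(ε / 2)) ≤ (C + 4) * (X₀ : ℝ) ^ (-(ε / 2)) := mul_le_mul_of_nonneg_right (by linarith) h1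
    exact mul_le_mul_of_nonneg_right h3 h2
  refine le_trans ?_ hle
  have hsub : ({t | t ∈ box N L ∧ ¬ Typical (C + 4) ε w m (𝒢 t) X₀ T (z t)} : Set (κ → ℤ)) ⊆ ↑E := by
    rintro t ⟨ht, hnt⟩
    by_contra hno
    refine hnt fun Y Y' hYY hXY hYT => ?_
    have h1 := hgood t ht hno Y Y' hYY hXY hYT
    rw [set_eq, finsum_mem_coe_finset]
    have h3 : ∑ p ∈ (Ioc Y Y').filter (fun p => p.Prime ∧ p ∈ 𝒢 t), w p * (z t p - m) = ∑ i ∈ Ico Y Y', ff X w t i := by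
      have h4 : Ioc Y Y' = (Ico Y Y').image fun i => i + 1 := by
        ext p
        rw [mem_image, mem_Ioc]
        constructor
        · rintro ⟨h5, h6⟩
          exact ⟨p - 1, mem_Ico.2 ⟨by omega, by omega⟩, by omega⟩
        · rintro ⟨i, hi, rfl⟩
          have := mem_Ico.1 hi
          omega
      rw [h4, sum_filter, sum_image (fun x _ y _ hxy => by simpa using hxy)]
      refine sum_congr rfl fun i _ => ?_
      unfold ff
      by_cases hp : (i + 1).Prime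
      · rw [if_pos hp]
        obtain ⟨h5, h6⟩ := hz t (i + 1) hp
        by_cases hG : i + 1 ∈ 𝒢 t
        · rw [if_pos ⟨hp, hG⟩, h5 hG]
        · rw [if_neg (fun h => hG h.2), h6 hG, mul_zero]
      · rw [if_neg hp, if_neg (fun h => hp h.1)]
    rw [h3]
    refine h1.trans ?_
    exact mul_le_mul_of_nonneg_right (by linarith) (by positivity)
  have h1 := Set.ncard_le_ncard hsub (Finset.finite_toSet _)
  rw [Set.ncard_coe_finset] at h1
  exact_mod_cast h1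

/-- Linear combinations. -/
lemma combine {κ ι : Type} [Fintype κ] [DecidableEq κ] {ε : ℝ} {𝒢 : (κ → ℤ) → Set ℕ} (s : Finset ι) (c m : ι → ℝ)
    (z : ι → (κ → ℤ) → ℕ → ℝ) (h : ∀ i ∈ s, AlmostAll ε (m i) 𝒢 (z i)) :
    AlmostAll ε (∑ i ∈ s, c i * m i) 𝒢 fun t p => ∑ i ∈ s, c i * z i t p := by
  classical
  choose! C hC using h
  obtain ⟨C', hC'⟩ : ∃ C', C' = ∑ i ∈ s, |C i| * (1 + |c i|) := ⟨_, rfl⟩
  have hA : ∑ i ∈ s, |C i| ≤ C' := by
    rw [hC']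
    exact sum_le_sum fun i _ => le_mul_of_one_le_right (abs_nonneg _) (by have := abs_nonneg (c i); linarith)
  have hB : ∑ i ∈ s, |c i| * |C i| ≤ C' := by
    rw [hC']
    refine sum_le_sum fun i _ => ?_
    have h1 := abs_nonneg (C i)
    have h2 := abs_nonneg (c i)
    nlinarith
  refine ⟨C', fun w hw N L T hT X₀ hX₀ => ?_⟩
  have h1 : (0 : ℝ) ≤ (X₀ : ℝ) ^ (-(ε / 2)) := by positivity
  have h2 : (0 : ℝ) ≤ ∏ i, (L i : ℝ) := prod_nonneg fun i _ => Nat.cast_nonneg _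
  have hsub : (box N L).filter (fun t => ¬ Typical C' ε w (∑ i ∈ s, c i * m i) (𝒢 t) X₀ T fun p => ∑ i ∈ s, c i * z i t p) ⊆
      s.biUnion fun i => (box N L).filter fun t => ¬ Typical (C i) ε w (m i) (𝒢 t) X₀ T (z i t) := by
    intro t ht
    rw [mem_filter] at ht
    by_contra hno
    rw [mem_biUnion] at hno
    push Not at hno
    have hall : ∀ i ∈ s, Typical (C i) ε w (m i) (𝒢 t) X₀ T (z i t) := by
      intro i hi
      by_contra h3
      exact hno i hi (mem_filter.2 ⟨ht.1, h3⟩)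
    refine ht.2 fun Y Y' hYY hXY hYT => ?_
    rw [set_eq, finsum_mem_coe_finset]
    have h3 : ∑ p ∈ (Ioc Y Y').filter (fun p => p.Prime ∧ p ∈ 𝒢 t), w p * (∑ i ∈ s, c i * z i t p - ∑ i ∈ s, c i * m i) =
        ∑ i ∈ s, c i * ∑ p ∈ (Ioc Y Y').filter (fun p => p.Prime ∧ p ∈ 𝒢 t), w p * (z i t p - m i) := by
      simp only [mul_sum]
      rw [sum_comm]
      refine sum_congr rfl fun p _ => ?_
      rw [← sum_sub_distrib, mul_sum]
      exact sum_congr rfl fun i _ => by ring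
    rw [h3]
    refine (abs_sum_le_sum_abs _ _).trans ?_
    have h4 : ∀ i ∈ s, |c i * ∑ p ∈ (Ioc Y Y').filter (fun p => p.Prime ∧ p ∈ 𝒢 t), w p * (z i t p - m i)| ≤
        |c i| * |C i| * (Y' : ℝ) ^ (1 / 2 + ε / 2) := by
      intro i hi
      have h5 := hall i hi Y Y' hYY hXY hYT
      rw [set_eq, finsum_mem_coe_finset] at h5
      rw [abs_mul, mul_assoc]
      refine mul_le_mul_of_nonneg_left (h5.trans ?_) (abs_nonneg _)
      exact mul_le_mul_of_nonneg_right (le_abs_self _) (by positivity)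
    refine (sum_le_sum h4).trans ?_
    rw [← sum_mul]
    exact mul_le_mul_of_nonneg_right hB (by positivity)
  rw [ncard_eq]
  have h3 : (((box N L).filter (fun t => ¬ Typical C' ε w (∑ i ∈ s, c i * m i) (𝒢 t) X₀ T fun p => ∑ i ∈ s, c i * z i t p)).card : ℝ) ≤
      ∑ i ∈ s, (((box N L).filter fun t => ¬ Typical (C i) ε w (m i) (𝒢 t) X₀ T (z i t)).card : ℝ) := by
    exact_mod_cast (card_le_card hsub).trans card_biUnion_le
  refine h3.trans ?_
  have h4 : ∀ i ∈ s, (((box N L).filter fun t => ¬ Typical (C i) ε w (m i) (𝒢 t) X₀ T (z i t)).card : ℝ) ≤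
      |C i| * ((X₀ : ℝ) ^ (-(ε / 2)) * ∏ i, (L i : ℝ)) := by
    intro i hi
    have h5 := hC i hi w hw N L T hT X₀ hX₀
    rw [ncard_eq] at h5
    refine h5.trans ?_
    rw [mul_assoc]
    exact mul_le_mul_of_nonneg_right (le_abs_self _) (mul_nonneg h1 h2)
  refine (sum_le_sum h4).trans ?_
  rw [← sum_mul, mul_assoc]
  exact mul_le_mul_of_nonneg_right hA (mul_nonneg h1 h2)

lemma moment_eq {s : ℝ} (hs : s ^ 2 = 1) (j a : ℕ) : moment s j a = s ^ a * mj j a := by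
  rw [mom_eq hs]
  unfold moment
  refine sum_congr rfl fun i _ => ?_
  congr 2
  unfold eta
  split_ifs <;> simp

lemma moment_zero (s : ℝ) (j : ℕ) : moment s j 0 = 1 := by
  unfold moment
  simp

lemma points_eq {n : ℕ} {S : Set (MvPolynomial (Fin (n + 1)) ℤ)} (hS : ∀ G ∈ S, ∃ d, G.IsHomogeneous d) (p : ℕ) [hp : Fact p.Prime] {j : ℕ}
    (hj : 1 ≤ j) : points p j S = (VW (WS S p) j).card := by
  unfold points
  rw [dif_pos hp.out]
  exact pts_WS hS p hj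

lemma trace_eq {n : ℕ} {S : Set (MvPolynomial (Fin (n + 1)) ℤ)} (hS : ∀ G ∈ S, ∃ d, G.IsHomogeneous d) (p : ℕ) [hp : Fact p.Prime] {j : ℕ}
    (hj : 1 ≤ j) {δ : ℕ} (t : Mon n δ → ℤ) (D : ℕ) (b : ℕ → ℝ) :
    trace S (form t) D (b j) p j = (-1) ^ (D - 1) * tau (WS S p) D b j (fun m => (t m : ZMod p)) := by
  unfold trace tau points
  rw [dif_pos hp.out]
  have h1 := pts_sec hS p hj t
  rw [h1]
  unfold sp
  rw [← pow_mul, mul_comm (D - 1) j]

lemma sgn {D : ℕ} : ((-1 : ℝ) ^ (D - 1)) ^ 2 = 1 := by rw [← pow_mul, mul_comm, pow_mul, neg_one_sq, _root_.one_pow]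

lemma root_le {p : ℕ} [Fact p.Prime] {j : ℕ} (hj : 1 ≤ j) : 1 / Real.sqrt p ^ j ≤ ep p := by
  have h1 : 1 ≤ Real.sqrt p := one_le_sqrt (p := p)
  unfold ep
  exact one_div_le_one_div_of_le (by linarith) (le_self_pow₀ h1 (by omega))

/-- Monomials, sections. -/
theorem mono_sections {Λ : Type} [Fintype Λ] [DecidableEq Λ] (n D δ : Λ → ℕ) (S : ∀ l, Set (MvPolynomial (Fin (n l + 1)) ℤ))
    (b : Λ → ℕ → ℕ → ℝ) (J : ℕ)
    (a : Λ → ℕ → ℕ) (C₀ ε : ℝ) (hD : ∀ l, 2 ≤ D l) (hS : ∀ l, ∀ G ∈ S l, ∃ d, G.IsHomogeneous d)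
    (hW : ∀ l, ∀ p : ℕ, p.Prime → ∀ j, 1 ≤ j → |(points p j (S l) : ℝ) - (p : ℝ) ^ (j * D l)| ≤ C₀ * ((p : ℝ) ^ (j * D l) / Real.sqrt p ^ j))
    (hb : ∀ l, ∀ p : ℕ, p.Prime → ∀ j, 1 ≤ j →
      |(points p j (S l) : ℝ) / (p : ℝ) ^ j - b l p j| ≤ C₀ * (Real.sqrt p ^ (j * (D l - 1)) / Real.sqrt p ^ j))
    (ha : ∀ l, 2 * ∑ j ∈ Icc 1 J, j * a l j ≤ δ l + 1) (hε : 0 < ε) (hε1 : ε ≤ 1) :
    AlmostAll ε (∏ l, ∏ j ∈ Icc 1 J, moment ((-1) ^ (D l - 1)) j (a l j)) (fun _ => Set.univ)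
      fun (t : (Σ l, Mon (n l) (δ l)) → ℤ) p =>
        ∏ l, ∏ j ∈ Icc 1 J, trace (S l) (form fun m => t ⟨l, m⟩) (D l) (b l p j) p j ^ a l j := by
  classical
  have hs : ∀ l : Λ, ((-1 : ℝ) ^ (D l - 1)) ^ 2 = 1 := fun l => sgn
  have hmm : ∏ l, ∏ j ∈ Icc 1 J, moment ((-1) ^ (D l - 1)) j (a l j) = mm (fun l => (-1 : ℝ) ^ (D l - 1)) a J := by
    unfold mm
    exact prod_congr rfl fun l _ => prod_congr rfl fun j _ => moment_eq (hs l) j (a l j)
  rw [hmm]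
  have hSz : ∀ l (p : ℕ) [Fact p.Prime], Sz (WS (S l) p) (D l) J |C₀| := by
    intro l p hp
    refine ⟨stab_WS p, fun e he => ?_⟩
    have he1 := (mem_Icc.1 he).1
    have h1 := hW l p hp.out e he1
    rw [points_eq (hS l) p he1, pow_mul] at h1
    refine h1.trans ?_
    have h2 : (0 : ℝ) ≤ ((p : ℝ) ^ e) ^ D l := by positivity
    have h3 := root_le (p := p) he1
    have h4 : ((p : ℝ) ^ e) ^ D l / Real.sqrt p ^ e ≤ ((p : ℝ) ^ e) ^ D l * ep p := by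
      rw [div_eq_mul_one_div]
      exact mul_le_mul_of_nonneg_left h3 h2
    have h5 : 0 ≤ ((p : ℝ) ^ e) ^ D l / Real.sqrt p ^ e := by positivity
    exact (mul_le_mul_of_nonneg_right (le_abs_self _) h5).trans (mul_le_mul_of_nonneg_left h4 (abs_nonneg _))
  have hE := engine (δ := δ) (d := D) (B := J) (fun l p _ => WS (S l) p) b hs a (abs_nonneg C₀) hD hSz (fun l p hp j hj => by
      have he1 := (mem_Icc.1 hj).1
      have h1 := hb l p hp.out j he1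
      rw [points_eq (hS l) p he1] at h1
      refine h1.trans ?_
      have h2 : (0 : ℝ) ≤ Real.sqrt p ^ (j * (D l - 1)) := by positivity
      have h3 := root_le (p := p) he1
      have h4 : Real.sqrt p ^ (j * (D l - 1)) / Real.sqrt p ^ j ≤ ep p * sp p (D l) ^ j := by
        unfold sp
        rw [← pow_mul, mul_comm (D l - 1) j, div_eq_mul_one_div, mul_comm (ep p)]
        exact mul_le_mul_of_nonneg_left h3 h2
      have h5 : 0 ≤ Real.sqrt p ^ (j * (D l - 1)) / Real.sqrt p ^ j := by positivity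
      exact (mul_le_mul_of_nonneg_right (le_abs_self _) h5).trans (mul_le_mul_of_nonneg_left h4 (abs_nonneg _)))
    ha (fun _ _ => True) (fun _ _ => 0) (fun _ _ => le_rfl) (fun _ _ h => absurd trivial h) (le_refl (0 : ℝ)) (fun p hp => by
      rw [Q282.CL.av_const, zero_mul]) hε hε1
  refine almost _ hE _ _ fun t p hp => ⟨fun _ => ?_, fun h => absurd (Set.mem_univ p) h⟩
  have hF : Fact p.Prime := ⟨hp⟩
  unfold XX
  rw [dif_pos hp, if_pos trivial]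
  congr 1
  unfold TT
  refine prod_congr rfl fun l _ => prod_congr rfl fun j hj => ?_
  have h1 := trace_eq (hS l) p (mem_Icc.1 hj).1 (fun m => t ⟨l, m⟩) (D l) (b l p)
  rw [h1]
  rfl

/-- Monomials, hypersurfaces, primes of good reduction. -/
theorem mono_hyper {Λ : Type} [Fintype Λ] [DecidableEq Λ] (n δ : Λ → ℕ) (J : ℕ) (a : Λ → ℕ → ℕ) (ε : ℝ) (hn : ∀ l, 2 ≤ n l) (hδ : ∀ l, 1 ≤ δ l)
    (ha : ∀ l, 2 * ∑ j ∈ Icc 1 J, j * a l j ≤ δ l + 1) (hε : 0 < ε) (hε1 : ε ≤ 1) :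
    AlmostAll ε (∏ l, ∏ j ∈ Icc 1 J, moment ((-1) ^ (n l - 1)) j (a l j))
      (fun t : (Σ l, Mon (n l) (δ l)) → ℤ => {p | ∀ l, Good (form fun m => t ⟨l, m⟩) p})
      fun t p => ∏ l, ∏ j ∈ Icc 1 J, trace ∅ (form fun m => t ⟨l, m⟩) (n l) (∑ i ∈ range (n l), ((p : ℝ) ^ j) ^ i) p j ^ a l j := by
  classical
  obtain ⟨b, hb⟩ : ∃ b : Λ → ℕ → ℕ → ℝ, b = fun (l : Λ) (p j : ℕ) => ∑ i ∈ range (n l), ((p : ℝ) ^ j) ^ i := ⟨_, rfl⟩
  have hs : ∀ l : Λ, ((-1 : ℝ) ^ (n l - 1)) ^ 2 = 1 := fun l => sgn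
  have hmm : ∏ l, ∏ j ∈ Icc 1 J, moment ((-1) ^ (n l - 1)) j (a l j) = mm (fun l => (-1 : ℝ) ^ (n l - 1)) a J := by
    unfold mm
    exact prod_congr rfl fun l _ => prod_congr rfl fun j _ => moment_eq (hs l) j (a l j)
  rw [hmm]
  obtain ⟨C₀, hC₀⟩ : ∃ C₀ : ℝ, C₀ = 1 + ∑ l, (n l : ℝ) := ⟨_, rfl⟩
  have hC₀1 : 1 ≤ C₀ := by
    rw [hC₀]
    have : 0 ≤ ∑ l, (n l : ℝ) := sum_nonneg fun l _ => Nat.cast_nonneg _
    linarith
  have hC₀n : ∀ l, (n l : ℝ) ≤ C₀ := fun l => by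
    rw [hC₀]
    have := single_le_sum (f := fun l => (n l : ℝ)) (fun l _ => Nat.cast_nonneg _) (mem_univ l)
    linarith
  obtain ⟨good, hgood⟩ : ∃ good : (p : ℕ) → ((Σ l, Mon (n l) (δ l)) → ZMod p) → Prop, good = fun p c => ∀ l, ∀ _ : Fact p.Prime,
    IsSmooth (map (algebraMap (ZMod p) (AlgebraicClosure (ZMod p))) (form fun m => c ⟨l, m⟩)) := ⟨_, rfl⟩
  obtain ⟨bad, hbad⟩ : ∃ bad : (p : ℕ) → ((Σ l, Mon (n l) (δ l)) → ZMod p) → ℝ, bad = fun p c =>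
    ∑ l, if Pool.Agent.Y722.HS.IsBad p (fun m => c ⟨l, m⟩) then (1 : ℝ) else 0 := ⟨_, rfl⟩
  have hform : ∀ (l : Λ) (t : (Σ l, Mon (n l) (δ l)) → ℤ) (p : ℕ),
      map (Int.castRingHom (ZMod p)) (form fun m => t ⟨l, m⟩) = form fun m => (t ⟨l, m⟩ : ZMod p) := by
    intro l t p
    unfold Pool.Agent.Y722.HS.form
    simp [map_sum, map_prod]
  have hE := engine (δ := δ) (d := n) (B := J) (fun l p _ => WS (n := n l) ∅ p) b hs a (by linarith : 0 ≤ C₀) hn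
    (fun l p hp => sz_proj (by have := hn l; omega) J p (hC₀n l)) (fun l p hp j hj => by
      rw [hb]
      exact cen_proj p hC₀1 (mem_Icc.1 hj).1)
    ha good bad (fun p c => by
      rw [hbad]
      exact sum_nonneg fun l _ => by split_ifs <;> norm_num)
    (fun p c h => by
      rw [hgood] at h
      simp only at h
      push Not at h
      obtain ⟨l, hF, h⟩ := h
      have h1 : Pool.Agent.Y722.HS.IsBad p (fun m => c ⟨l, m⟩) := by
        by_contra hno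
        exact h (Pool.Agent.Y722.HS.isSmooth_of_not_isBad p (hδ l) _ hno)
      rw [hbad]
      simp only
      refine le_trans (le_of_eq ?_) (single_le_sum (f := fun l => if Pool.Agent.Y722.HS.IsBad p (fun m => c ⟨l, m⟩) then (1 : ℝ) else 0)
        (fun l _ => by split_ifs <;> norm_num) (mem_univ l))
      rw [if_pos h1])
    (Cb := ∑ l, ((δ l : ℝ) + (Pool.Agent.Y722.HS.Delta (n l) (δ l)).totalDegree + 1)) (sum_nonneg fun l _ => by positivity) (fun p hp => by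
      rw [hbad]
      rw [Q282.CL.av_sum, sum_mul]
      refine sum_le_sum fun l _ => ?_
      refine le_trans (le_of_eq (av_one (M := fun l => Mon (n l) (δ l)) (F := ZMod p) l
        (fun c : Mon (n l) (δ l) → ZMod p => if Pool.Agent.Y722.HS.IsBad p c then (1 : ℝ) else 0))) ?_
      rcases few_bad (n := n l) (δ := δ l) p with h | h
      · exact h
      · exact absurd h (by have := hδ l; omega)) hε hε1
  refine almost _ hE _ _ fun t p hp => ?_
  have hF : Fact p.Prime := ⟨hp⟩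
  have hiff : p ∈ {p | ∀ l, Good (form fun m => t ⟨l, m⟩) p} ↔ good p (rd p t) := by
    rw [hgood]
    show (∀ l, Good _ p) ↔ _
    unfold Good
    refine forall_congr' fun l => forall_congr' fun _ => ?_
    exact iff_of_eq (congrArg IsSmooth (congrArg (map (algebraMap (ZMod p) (AlgebraicClosure (ZMod p)))) (hform l t p)))
  refine ⟨fun h => ?_, fun h => ?_⟩
  · unfold XX
    rw [dif_pos hp, if_pos (hiff.1 h)]
    congr 1
    unfold TT
    refine prod_congr rfl fun l _ => prod_congr rfl fun j hj => ?_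
    have h1 := trace_eq (S := ∅) (fun G hG => absurd hG (Set.notMem_empty G)) p (mem_Icc.1 hj).1 (fun m => t ⟨l, m⟩) (n l) (b l p)
    rw [hb] at h1 ⊢
    simp only at h1
    rw [h1]
    rfl
  · unfold XX
    rw [dif_pos hp, if_neg (fun h' => h (hiff.2 h'))]

section poly

variable {Λ : Type} [Fintype Λ] [DecidableEq Λ]

lemma prod_Icc_range {R : Type} [CommMonoid R] (g : ℕ → R) (J : ℕ) : ∏ j ∈ Icc 1 J, g j = ∏ i ∈ range J, g (i + 1) := by
  refine prod_nbij' (fun j => j - 1) (fun i => i + 1) ?_ ?_ ?_ ?_ ?_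
  · intro j hj
    have := mem_Icc.1 hj
    exact mem_range.2 (by omega)
  · intro i hi
    have := mem_range.1 hi
    exact mem_Icc.2 ⟨by omega, by omega⟩
  · intro j hj
    have := mem_Icc.1 hj
    omega
  · intro i _
    omega
  · intro j hj
    have := mem_Icc.1 hj
    congr 1
    omega

lemma prod_blocks (m : Λ × ℕ →₀ ℕ) (g : Λ × ℕ → ℕ → ℝ) (hg : ∀ v, g v 0 = 1) {J : ℕ} (hJ : ∀ v ∈ m.support, v.2 < J) :
    m.prod g = ∏ l, ∏ j ∈ Icc 1 J, g (l, j - 1) (m (l, j - 1)) := by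
  rw [Finsupp.prod_of_support_subset (s := univ ×ˢ range J) m (fun v hv => mem_product.2 ⟨mem_univ _, mem_range.2 (hJ v hv)⟩) g fun v _ => hg v,
    prod_product]
  refine prod_congr rfl fun l _ => ?_
  rw [prod_Icc_range]
  exact prod_congr rfl fun i _ => by rw [Nat.add_sub_cancel]

lemma sum_blocks (m : Λ × ℕ →₀ ℕ) (l : Λ) {J : ℕ} (hJ : ∀ v ∈ m.support, v.2 < J) :
    ∑ j ∈ Icc 1 J, j * m (l, j - 1) = Finsupp.weight (blk l) m := by
  rw [Finsupp.weight_apply, Finsupp.sum_of_support_subset (s := univ ×ˢ range J) m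
    (fun v hv => mem_product.2 ⟨mem_univ _, mem_range.2 (hJ v hv)⟩) (fun v a => a • blk l v) (fun v _ => by simp), sum_product]
  have h1 : ∀ l' ∈ (univ : Finset Λ), ∑ i ∈ range J, m (l', i) • blk l (l', i) = if l' = l then ∑ i ∈ range J, m (l, i) * (i + 1) else 0 := by
    intro l' _
    split_ifs with h
    · refine sum_congr rfl fun i _ => ?_
      unfold blk
      rw [h, if_pos rfl, smul_eq_mul]
    · refine sum_eq_zero fun i _ => ?_
      unfold blk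
      rw [if_neg h, smul_zero]
  rw [sum_congr rfl h1, sum_ite_eq' univ l, if_pos (mem_univ l)]
  have h2 := prod_Icc_range (R := Multiplicative ℕ) (fun j => Multiplicative.ofAdd (j * m (l, j - 1))) J
  rw [← ofAdd_sum, ← ofAdd_sum] at h2
  have h3 := Multiplicative.ofAdd.injective h2
  rw [h3]
  refine sum_congr rfl fun i _ => ?_
  rw [Nat.add_sub_cancel, mul_comm]

/-- From the monomials to the polynomials. -/
theorem poly_of_mono {κ : Type} [Fintype κ] [DecidableEq κ] {ε : ℝ} {𝒢 : (κ → ℤ) → Set ℕ} (s : Λ → ℝ) (δ : Λ → ℕ)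
    (x : (κ → ℤ) → ℕ → Λ → ℕ → ℝ)
    (hmono : ∀ (J : ℕ) (a : Λ → ℕ → ℕ), (∀ l, 2 * ∑ j ∈ Icc 1 J, j * a l j ≤ δ l + 1) →
      AlmostAll ε (∏ l, ∏ j ∈ Icc 1 J, moment (s l) j (a l j)) 𝒢 fun t p => ∏ l, ∏ j ∈ Icc 1 J, x t p l j ^ a l j)
    (f : MvPolynomial (Λ × ℕ) ℝ) (hf : ∀ m ∈ f.support, ∀ l, 2 * Finsupp.weight (blk l) m ≤ δ l + 1) :
    AlmostAll ε (mean s f) 𝒢 fun t p => eval (fun v => x t p v.1 (v.2 + 1)) f := by
  classical
  have h1 : (fun (t : κ → ℤ) (p : ℕ) => eval (fun v : Λ × ℕ => x t p v.1 (v.2 + 1)) f) =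
      fun t p => ∑ m ∈ f.support, f.coeff m * m.prod fun v a => x t p v.1 (v.2 + 1) ^ a := by
    funext t p
    rw [eval_eq]
    rfl
  rw [h1]
  unfold mean
  refine combine f.support (fun m => f.coeff m) (fun m => m.prod fun v a => moment (s v.1) (v.2 + 1) a)
    (fun m t p => m.prod fun v a => x t p v.1 (v.2 + 1) ^ a) fun m hm => ?_
  obtain ⟨J, hJ⟩ : ∃ J : ℕ, ∀ v ∈ m.support, v.2 < J :=
    ⟨m.support.sup (fun v => v.2 + 1), fun v hv => Nat.lt_of_succ_le (Finset.le_sup (f := fun v : Λ × ℕ => v.2 + 1) hv)⟩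
  have h2 := hmono J (fun l j => m (l, j - 1)) fun l => by
    rw [sum_blocks m l hJ]
    exact hf m hm l
  have h3 : m.prod (fun v a => moment (s v.1) (v.2 + 1) a) = ∏ l, ∏ j ∈ Icc 1 J, moment (s l) j (m (l, j - 1)) := by
    rw [prod_blocks m (fun v a => moment (s v.1) (v.2 + 1) a) (fun v => moment_zero _ _) hJ]
    refine prod_congr rfl fun l _ => prod_congr rfl fun j hj => ?_
    have := mem_Icc.1 hj
    show moment (s l) (j - 1 + 1) _ = _
    rw [Nat.sub_add_cancel this.1]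
  have h4 : (fun (t : κ → ℤ) (p : ℕ) => m.prod fun v a => x t p v.1 (v.2 + 1) ^ a) =
      fun t p => ∏ l, ∏ j ∈ Icc 1 J, x t p l j ^ m (l, j - 1) := by
    funext t p
    rw [prod_blocks m (fun v a => x t p v.1 (v.2 + 1) ^ a) (fun v => pow_zero _) hJ]
    refine prod_congr rfl fun l _ => prod_congr rfl fun j hj => ?_
    have := mem_Icc.1 hj
    show x t p l (j - 1 + 1) ^ _ = _
    rw [Nat.sub_add_cancel this.1]
  rw [h3, h4]
  exact h2

end poly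

end Run7.h886.SX
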